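import Pool.Agent.R30B.Stmts

/-!
# Squad R30B, row BLK: the row before a white row
-/

set_option autoImplicit false

namespace Pool.Agent.R30B.H44

open Pool.Agent.H21R30

theorem blk : BlkStmt := by
  intro D hD t a h0 hw
  have hrel : ∀ k, k < a → D t k = (D t (k + 1) || D t (k + 2)) := by
    intro k hk
    have h1 := hD t k
    rw [hw (k + 1) (by omega) (by omega)] at h1
    revert h1
    cases D t k <;> cases (D t (k + 1) || D t (k + 2)) <;> decide
  intro k
  induction k with
  | zero => intro _; exact h0
  | succ k ih =>
    intro hk
    have h1 := ih (by omega)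
    have h2 := hrel k (by omega)
    have h3 := hrel (k + 1) hk
    rw [h1] at h2
    revert h2 h3
    cases D t (k + 1) <;> cases D t (k + 2) <;> simp

end Pool.Agent.R30B.H44
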