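import Pool.Agent.R30B.Stmts

/-!
# Squad R30B, row ZCB: case B is impossible for two consecutive runs of zeros
-/

set_option autoImplicit false

namespace Pool.Agent.R30B.H44

open Pool.Agent.H21R30

/-- in a run of zeros of the driver column `1` is monotone -/
theorem mono1 (D : ℕ → ℕ → Bool) (hD : Dia D) (s a : ℕ) (h : ∀ t < s, D t 0 = false)
    (ha : a ≤ s) (h1 : D a 1 = false) : ∀ t ≤ a, D t 1 = false := by
  intro t ht
  by_contra hne
  rw [Bool.not_eq_false] at hne
  have key : ∀ k, t + k ≤ a → D (t + k) 1 = true := by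
    intro k
    induction k with
    | zero => intro _; exact hne
    | succ k ih =>
      intro hk
      have h2 := ih (by omega)
      have h3 := hD (t + k) 0
      rw [h (t + k) (by omega), h2] at h3
      rw [← Nat.add_assoc]
      simpa using h3
  have h4 := key (a - t) (by omega)
  rw [show t + (a - t) = a by omega] at h4
  rw [h1] at h4
  exact Bool.noConfusion h4

/-- white region left of the first black column of row `0` -/
theorem white (D : ℕ → ℕ → Bool) (hD : Dia D) (s B : ℕ) (h : ∀ t < s, D t 0 = false)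
    (h0 : ∀ k ≤ B, D 0 k = false) : ∀ t k, t ≤ s → (k = 0 → t < s) → t + k ≤ B →
      D t k = false := by
  intro t
  induction t with
  | zero => intro k _ _ hk; exact h0 k (by omega)
  | succ t ih =>
    intro k hts hk0 hk
    rcases k with _ | k
    · exact h (t + 1) (hk0 rfl)
    · rw [hD t k, ih k (by omega) (fun _ => by omega) (by omega)]
      by_cases hk2 : t + (k + 2) ≤ B
      · rw [ih (k + 1) (by omega) (fun hc => by omega) (by omega),
          ih (k + 2) (by omega) (fun hc => by omega) (by omega)]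
        rfl
      · exfalso
        omega

/-- right moving edge -/
theorem redge (D : ℕ → ℕ → Bool) (hD : Dia D) (s r : ℕ) (hs : D s 0 = true)
    (hw : ∀ k, 1 ≤ k → k ≤ 2 * r + 1 → D s k = false) : ∀ i ≤ r, D (s + i) i = true ∧
      ∀ k, i + 1 ≤ k → i + k ≤ 2 * r + 1 → D (s + i) k = false := by
  intro i
  induction i with
  | zero => intro _; exact ⟨hs, fun k h1 h2 => hw k (by omega) (by omega)⟩
  | succ i ih =>
    intro hi
    obtain ⟨h1, h2⟩ := ih (by omega)
    constructor
    · rw [← Nat.add_assoc, hD (s + i) i, h1, h2 (i + 1) (by omega) (by omega),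
        h2 (i + 2) (by omega) (by omega)]
      rfl
    · intro k hk1 hk2
      obtain ⟨k, rfl⟩ : ∃ k', k = k' + 1 := ⟨k - 1, by omega⟩
      rw [← Nat.add_assoc, hD (s + i) k, h2 k (by omega) (by omega),
        h2 (k + 1) (by omega) (by omega), h2 (k + 2) (by omega) (by omega)]
      rfl

/-- a black segment becomes white -/
theorem shrink (D : ℕ → ℕ → Bool) (hD : Dia D) (T u V : ℕ)
    (hb : ∀ i < V, D T (u + i) = true) : ∀ i', ∀ i, 1 + i' ≤ i → i + i' < V →
      D (T + 1 + i') (u + i) = false := by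
  intro i'
  induction i' with
  | zero =>
    intro i h1 h2
    obtain ⟨i, rfl⟩ : ∃ k, i = k + 1 := ⟨i - 1, by omega⟩
    rw [Nat.add_zero, ← Nat.add_assoc, hD T (u + i), hb i (by omega), Nat.add_assoc,
      hb (i + 1) (by omega)]
    rfl
  | succ i' ih =>
    intro i h1 h2
    obtain ⟨i, rfl⟩ : ∃ k, i = k + 1 := ⟨i - 1, by omega⟩
    rw [← Nat.add_assoc (T + 1), ← Nat.add_assoc u, hD (T + 1 + i') (u + i),
      ih i (by omega) (by omega), Nat.add_assoc u, ih (i + 1) (by omega) (by omega),
      Nat.add_assoc u, ih (i + 2) (by omega) (by omega)]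
    rfl

theorem zcb (wht : WhtStmt) (blk : BlkStmt) (edg : EdgStmt) : ZcbStmt := by
  intro r hr
  obtain ⟨m, hm⟩ : ∃ m, m = 9 * (r + 2) := ⟨_, rfl⟩
  obtain ⟨J, hJ⟩ : ∃ J, J = 2 * r + 2 * m + 4 := ⟨_, rfl⟩
  obtain ⟨Q, hQ⟩ : ∃ Q, Q = 2 ^ J := ⟨_, rfl⟩
  have hQ1 : 1 ≤ Q := by rw [hQ]; exact Nat.one_le_two_pow
  obtain ⟨V, hV⟩ : ∃ V, V = 4 * Q + 4 := ⟨_, rfl⟩
  obtain ⟨C, hC⟩ := edg J V
  refine ⟨C + m + r + J + V + 10, ?_⟩
  intro s hs D hD hz hs1 hp1 hz2 ha1 ha2
  obtain ⟨a, ha⟩ : ∃ a, a = s - m := ⟨_, rfl⟩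
  rw [← hm, ← ha] at ha1 ha2
  -- Steps 1 and 2
  have hm1 := mono1 D hD s a hz (by omega) ha1
  have hD' : Dia (fun t k => D (s + r + t) k) := fun t k => hD (s + r + t) k
  have hm2 := mono1 (fun t k => D (s + r + t) k) hD' s a hz2 (by omega) ha2
  have hw1 := wht D hD a (fun t ht => hz t (by omega)) hm1
  have hw2 := wht (fun t k => D (s + r + t) k) hD' a (fun t ht => hz2 t (by omega)) hm2
  have hrow0 : ∀ k, k ≤ a + 1 → D 0 k = false := by
    intro k hk
    rcases k with _ | k
    · exact hz 0 (by omega)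
    · exact hw1 0 (k + 1) (by omega) (by omega)
  have hrowp : ∀ k, 1 ≤ k → k ≤ a + 1 → D (s + r) k = false := by
    intro k h1 h2
    exact hw2 0 k h1 (by omega)
  -- Step 3
  have hblk : ∀ k, k < a + 1 → D (s + r - 1) k = true := by
    apply blk D hD (s + r - 1) (a + 1) hp1
    intro k h1 h2
    rw [show s + r - 1 + 1 = s + r by omega]
    exact hrowp k h1 h2
  -- Step 4
  have hex : ∃ k, k ≤ s + 2 * r + 1 ∧ D 0 k = true := by
    by_contra hcon
    have h0 : ∀ k ≤ s + 2 * r + 1, D 0 k = false := by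
      intro k hk
      by_contra hne
      rw [Bool.not_eq_false] at hne
      exact hcon ⟨k, hk, hne⟩
    have hwh := white D hD s (s + 2 * r + 1) hz h0
    have hre := (redge D hD s r hs1
      (fun k h1 h2 => hwh s k le_rfl (fun hc => by omega) (by omega)) r le_rfl).1
    rw [hrowp r hr (by omega)] at hre
    exact Bool.noConfusion hre
  obtain ⟨e, he1, he2, he3⟩ : ∃ e, e ≤ s + 2 * r + 1 ∧ D 0 e = true ∧ ∀ k < e, D 0 k = false := by
    classical
    have hex' : ∃ k, D 0 k = true := ⟨hex.choose, hex.choose_spec.2⟩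
    refine ⟨Nat.find hex', ?_, Nat.find_spec hex', ?_⟩
    · exact le_trans (Nat.find_min' hex' hex.choose_spec.2) hex.choose_spec.1
    · intro k hk
      have := Nat.find_min hex' hk
      rwa [Bool.not_eq_true] at this
  have hea : a + 2 ≤ e := by
    by_contra hcon
    have := hrow0 e (by omega)
    rw [he2] at this
    exact Bool.noConfusion this
  have hwh := white D hD s (e - 1) hz (fun k hk => he3 k (by omega))
  -- Step 5
  have hL0 : ∀ t, t ≤ (e + 0 + a) / 2 → D t (e + 0 - t) = true := by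
    intro t
    induction t with
    | zero => intro _; exact he2
    | succ t ih =>
      intro ht
      have h1 := ih (by omega)
      have e1 : e + 0 - (t + 1) = (e - t - 2) + 1 := by omega
      have e2 : e + 0 - t = (e - t - 2) + 2 := by omega
      rw [e2] at h1
      rw [e1, hD t (e - t - 2), h1,
        hwh t (e - t - 2) (by omega) (fun hc => by omega) (by omega)]
      cases D t (e - t - 2 + 1) <;> rfl
  have hL1 : ∀ t, 1 ≤ t → t ≤ (e + 1 + a) / 2 → D t (e + 1 - t) = true := by
    intro t ht1 ht2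
    obtain ⟨t, rfl⟩ : ∃ k, t = k + 1 := ⟨t - 1, by omega⟩
    have h1 := hL0 t (by omega)
    have e1 : e + 1 - (t + 1) = (e - t - 1) + 1 := by omega
    have e2 : e + 0 - t = (e - t - 1) + 1 := by omega
    rw [e2] at h1
    rw [e1, hD t (e - t - 1), h1,
      hwh t (e - t - 1) (by omega) (fun hc => by omega) (by omega)]
    rfl
  have hLr : ∀ j t, t + 1 ≤ (e + (j + 2) + a) / 2 →
      D (t + 1) (e + (j + 2) - (t + 1)) =
        Bool.xor (D t (e + j - t)) (D t (e + (j + 1) - t) || D t (e + (j + 2) - t)) := by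
    intro j t ht
    have e1 : e + (j + 2) - (t + 1) = (e + j - t) + 1 := by omega
    have e2 : e + (j + 1) - t = (e + j - t) + 1 := by omega
    have e3 : e + (j + 2) - t = (e + j - t) + 2 := by omega
    rw [e1, e2, e3]
    exact hD t (e + j - t)
  -- Step 6
  have hfin : ∀ j, J ≤ j → j < J + V → D (s + r - 1) (e + j - (s + r - 1)) = true := by
    intro j h1 h2
    exact hblk _ (by omega)
  have hE := hC (fun j t => D t (e + j - t)) (fun j => (e + j + a) / 2)
    (fun j => by show (e + j + a) / 2 ≤ (e + (j + 1) + a) / 2; omega)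
    (fun j => by show (e + (j + 2) + a) / 2 ≤ (e + j + a) / 2 + 1; omega)
    hL0 hL1 hLr (s + r - 1) (by omega)
    (by show s + r - 1 ≤ (e + J + a) / 2; omega) hfin
  rw [← hQ] at hE
  -- Step 7
  have hb : ∀ i < V, D (s + r - 1 - Q) (e + J - (s + r - 1 - Q) + i) = true := by
    intro i hi
    have h1 := hE (J + i) (by omega) (by omega)
    have e1 : e + (J + i) - (s + r - 1 - Q) = e + J - (s + r - 1 - Q) + i := by omega
    have h2 : D (s + r - 1 - Q) (e + (J + i) - (s + r - 1 - Q)) = true := h1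
    rwa [e1] at h2
  have hsh := shrink D hD (s + r - 1 - Q) (e + J - (s + r - 1 - Q)) V hb (Q - 1) Q (by omega)
    (by omega)
  have hbl := hfin (J + 2 * Q) (by omega) (by omega)
  have e1 : s + r - 1 - Q + 1 + (Q - 1) = s + r - 1 := by omega
  have e2 : e + J - (s + r - 1 - Q) + Q = e + (J + 2 * Q) - (s + r - 1) := by omega
  rw [e1, e2, hbl] at hsh
  exact Bool.noConfusion hsh

end Pool.Agent.R30B.H44
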